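import Mathlib
import Pool.Agent.V11243.OagModels

/-!
# Cofinality of realisations over a small base: a counterexample

`T0` is the theory of the ordered group of rationals (divisible ordered abelian groups).  For an
uncountable `κ` and a `κ`-saturated model `U` we take `M = ℚ e` for a positive element `e`, and for
`p` the type of an element just below all rational multiples `q e`, `q > √2`, and above everything
below these.  Then `p(dcl(M b)) = {b}`, while `b + ε` realises `p` for infinitesimal `ε > 0`.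
-/

set_option autoImplicit false

open FirstOrder FirstOrder.Language Pool.Agent.V11251.DW Pool.Agent.V11243.OagQE
  Pool.Agent.V11243.OagModels Cardinal

namespace Pool.Agent.Results.MP_52937b_lc.NotCofinal

/-! ### Definitions -/

/-- Points and open intervals (with endpoints in the structure or infinite). -/
def PointOrInterval {N : Type} [Log.Structure N] (I : Set N) : Prop :=
  (∃ a, I = {a}) ∨ (∃ a b, I = {x | slt a x ∧ slt x b}) ∨ (∃ a, I = {x | slt a x}) ∨
    (∃ b, I = {x | slt x b}) ∨ I = Set.univ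

/-- `T` is o-minimal: in every model the order is a dense linear order without endpoints and every
set definable with parameters is a finite union of points and open intervals. -/
def OMinimal (T : Log.Theory) : Prop :=
  ∀ (N : Type) [Log.Structure N] [Nonempty N], N ⊨ T →
    IsStrictTotalOrder N slt ∧ (∀ x y : N, slt x y → ∃ z, slt x z ∧ slt z y) ∧
      (∀ x : N, ∃ y, slt x y) ∧ (∀ x : N, ∃ y, slt y x) ∧
      ∀ S : Set N, (Set.univ : Set N).Definable₁ Log S →
        ∃ C : Set (Set N), C.Finite ∧ (∀ I ∈ C, PointOrInterval I) ∧ S = ⋃₀ C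

/-- A formula in one variable (`Sum.inr ()`) with finitely many parameters from `U`. -/
abbrev PFormula (U : Type) : Type := Σ n : ℕ, Log.Formula (Fin n ⊕ Unit) × (Fin n → U)

/-- The type over `U` of an element `b` of the elementary extension `j : U → N`. -/
def tp {U N : Type} [Log.Structure U] [Log.Structure N] (j : U ↪ₑ[Log] N) (b : N) :
    Set (PFormula U) :=
  {γ | γ.2.1.Realize (Sum.elim (j ∘ γ.2.2) fun _ => b)}

/-- `U` is `κ`-saturated. -/
def Saturated (κ : Cardinal.{0}) (U : Type) [Log.Structure U] : Prop :=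
  ∀ A : Set U, #A < κ → ∀ Γ : Set (PFormula U), (∀ γ ∈ Γ, ∀ i, γ.2.2 i ∈ A) →
    (∀ Γ' : Set (PFormula U), Γ' ⊆ Γ → Γ'.Finite →
      ∃ x : U, ∀ γ ∈ Γ', γ.2.1.Realize (Sum.elim γ.2.2 fun _ => x)) →
    ∃ x : U, ∀ γ ∈ Γ, γ.2.1.Realize (Sum.elim γ.2.2 fun _ => x)

/-- The global type `p` is fixed by all automorphisms fixing `M` pointwise. -/
def Invariant {U : Type} [Log.Structure U] (M : Set U) (p : Set (PFormula U)) : Prop :=
  ∀ σ : U ≃[Log] U, (∀ m ∈ M, σ m = m) →
    ∀ γ : PFormula U, γ ∈ p ↔ (⟨γ.1, γ.2.1, σ ∘ γ.2.2⟩ : PFormula U) ∈ p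

/-- The formula `s < t`. -/
def ltF {α : Type} (s t : Log.Term α) : Log.Formula α :=
  Relations.formula₂ (L := Log) (GRel.lt : Log.Relations 2) s t

/-- The formula `x ≤ d`, that is, not `d < x`. -/
def leFormula {U : Type} (d : U) : PFormula U :=
  ⟨1, ∼(ltF (Term.var (Sum.inl 0)) (Term.var (Sum.inr ()))), fun _ => d⟩

/-- The elements `d` of `U` with `p ⊢ x ≤ d`. -/
def right {U : Type} (p : Set (PFormula U)) : Set U := {d | leFormula d ∈ p}

/-- `p` has small cofinality on the right. -/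
def SmallRight {U : Type} [Log.Structure U] (κ : Cardinal.{0}) (p : Set (PFormula U)) : Prop :=
  ∃ S : Set U, S ⊆ right p ∧ #S < κ ∧ ∀ d ∈ right p, ∃ s ∈ S, ¬ slt d s

/-- Definable closure. -/
def dcl {N : Type} [Log.Structure N] (A : Set N) : Set N := {x | A.Definable₁ Log {x}}

theorem real_ltF {N : Type} [Log.Structure N] {α : Type} (s t : Log.Term α) (v : α → N) :
    (ltF s t).Realize v ↔ slt (s.realize v) (t.realize v) :=
  Formula.realize_rel₂

/-! ### Definable sets -/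

section defsets

variable {G : Type} [AddCommGroup G] [LinearOrder G] [IsOrderedAddMonoid G] [Nontrivial G]
variable (hdiv : ∀ n : ℤ, n ≠ 0 → ∀ g : G, ∃ h : G, n • h = g)

include hdiv in
theorem definable_sdH (H : AddSubgroup G) (A : Set G) (hA : A ⊆ H) (S : Set G)
    (hS : A.Definable₁ Log S) : SDH H (fun v : Fin 1 → G => v 0 ∈ S) := by
  classical
  unfold Set.Definable₁ at hS
  rw [Set.definable_iff_exists_formula_sum] at hS
  obtain ⟨φ, hφ⟩ := hS
  have h1 := formula_sdH (H := H) hdiv (m := 0) φ (Fin 1)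
    (Sum.elim (fun c : A => ((0, (c : G)) : Form G (Fin 1)))
      (fun i => (Pi.single i 1, 0))) (fun i => i.elim0)
    (by rintro (c | i)
        · exact hA c.2
        · exact H.zero_mem) (fun i => i.elim0)
  refine h1.congr fun v => ?_
  have h2 : v ∈ {x : Fin 1 → G | x 0 ∈ S} ↔
      φ.Realize (Sum.elim (fun a : A => (a : G)) v) := by
    rw [hφ]; rfl
  refine Iff.trans ?_ h2.symm
  unfold Language.Formula.Realize
  have e1 : (fun b => ev ((Sum.elim (fun c : A => ((0, (c : G)) : Form G (Fin 1)))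
      (fun i => (Pi.single i 1, 0))) b) v) = Sum.elim (fun a : A => (a : G)) v := by
    funext b
    rcases b with c | i
    · exact ev_const _ _
    · exact ev_var _ _
  rw [e1]
  exact iff_of_eq (congrArg _ (Subsingleton.elim _ _))

theorem ev_one (f : Form G (Fin 1)) (x : G) : ev f (fun _ => x) = f.1 0 • x + f.2 := by
  simp [ev]

include hdiv in
/-- definable sets over `H` are determined by finitely many comparisons with elements of the
divisible closure of `H` -/
theorem definable_roots (H : AddSubgroup G) (hH : ∀ n : ℤ, n ≠ 0 → ∀ x : G, n • x ∈ H → x ∈ H)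
    (A : Set G) (hA : A ⊆ H) (S : Set G) (hS : A.Definable₁ Log S) :
    ∃ R : Finset G, (∀ r ∈ R, r ∈ H) ∧
      ∀ x x' : G, (∀ r ∈ R, (x < r ↔ x' < r) ∧ (r < x ↔ r < x')) → (x ∈ S ↔ x' ∈ S) := by
  classical
  obtain ⟨Fs, hfin, hFH, hF⟩ := definable_sdH hdiv H A hA S hS
  have hroot : ∀ f : Form G (Fin 1), ∃ r : G, (f.2 ∈ H → r ∈ H) ∧
      (f.1 0 ≠ 0 → (f.1 0) • r = - f.2) := by
    intro f
    by_cases hn : f.1 0 = 0
    · exact ⟨0, fun _ => H.zero_mem, fun h => absurd hn h⟩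
    · obtain ⟨r, hr⟩ := hdiv _ hn (-f.2)
      exact ⟨r, fun h => hH _ hn r (by rw [hr]; exact H.neg_mem h), fun _ => hr⟩
  choose r hrH hr using hroot
  refine ⟨hfin.toFinset.image r, ?_, ?_⟩
  · intro y hy
    obtain ⟨f, hf, rfl⟩ := Finset.mem_image.1 hy
    exact hrH f (hFH f (hfin.mem_toFinset.1 hf))
  · intro x x' h
    apply hF (fun _ => x) (fun _ => x')
    intro f hf
    have h' := h (r f) (Finset.mem_image.2 ⟨f, hfin.mem_toFinset.2 hf, rfl⟩)
    rw [ev_one, ev_one]
    by_cases hn : f.1 0 = 0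
    · rw [hn, zero_smul, zero_smul]
      exact ⟨Iff.rfl, Iff.rfl⟩
    · have e1 : f.1 0 • x + f.2 = f.1 0 • (x - r f) := by
        rw [smul_sub, hr f hn]; abel
      have e2 : f.1 0 • x' + f.2 = f.1 0 • (x' - r f) := by
        rw [smul_sub, hr f hn]; abel
      rw [e1, e2, ss_zsmul hn]
      unfold SS
      rw [sub_neg, sub_neg, sub_pos, sub_pos]
      exact h'

theorem noMax : ∀ x : G, ∃ y, x < y := by
  intro x
  obtain ⟨a, ha⟩ := exists_ne (0 : G)
  rcases lt_or_gt_of_ne ha with h | h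
  · exact ⟨x + -a, by simpa using h⟩
  · exact ⟨x + a, by simpa using h⟩

theorem noMin : ∀ x : G, ∃ y, y < x := by
  intro x
  obtain ⟨a, ha⟩ := exists_ne (0 : G)
  rcases lt_or_gt_of_ne ha with h | h
  · exact ⟨x + a, by simpa using h⟩
  · exact ⟨x - a, by simpa using h⟩

include hdiv in
/-- an element of `dcl(A)` lies in every divisible subgroup containing `A` -/
theorem mem_of_mem_dcl (H : AddSubgroup G) (hH : ∀ n : ℤ, n ≠ 0 → ∀ x : G, n • x ∈ H → x ∈ H)
    (A : Set G) (hA : A ⊆ H) (x : G) (hx : x ∈ dcl A) : x ∈ H := by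
  classical
  haveI := denselyOrdered_of_div hdiv
  haveI : NoMaxOrder G := ⟨noMax⟩
  haveI : NoMinOrder G := ⟨noMin⟩
  obtain ⟨R, hRH, hR⟩ := definable_roots hdiv H hH A hA {x} hx
  by_contra hxH
  obtain ⟨y, hy1, hy2⟩ := Order.exists_between_finsets {x} (R.filter (x < ·)) (by
    intro a ha b hb
    rw [Finset.mem_singleton] at ha
    rw [ha]; exact (Finset.mem_filter.1 hb).2)
  have hxy : x < y := hy1 x (Finset.mem_singleton_self x)
  have : y ∈ ({x} : Set G) := (hR x y fun r hr => by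
    have hne : r ≠ x := fun h => hxH (h ▸ hRH r hr)
    rcases lt_or_gt_of_ne hne with h | h
    · exact ⟨⟨fun h' => absurd h' h.not_gt, fun h' => absurd (h.trans hxy) h'.not_gt⟩,
        ⟨fun _ => h.trans hxy, fun _ => h⟩⟩
    · have h3 := hy2 r (Finset.mem_filter.2 ⟨hr, h⟩)
      exact ⟨⟨fun _ => h3, fun _ => h⟩, ⟨fun h' => absurd h' h.not_gt,
        fun h' => absurd h' h3.not_gt⟩⟩).1 rfl
  exact hxy.ne' this

include hdiv in
/-- a nontrivial divisible subgroup meets every nonempty set definable over it -/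
theorem meetsDefinable (H : AddSubgroup G) (hH : ∀ n : ℤ, n ≠ 0 → ∀ x : G, n • x ∈ H → x ∈ H)
    (e : G) (he : e ∈ H) (he0 : e ≠ 0) : Log.MeetsDefinable (H : Set G) := by
  classical
  intro D ⟨x, hx⟩ hD
  obtain ⟨R, hRH, hR⟩ := definable_roots hdiv H hH H subset_rfl D hD
  by_cases hxH : x ∈ H
  · exact ⟨x, hx, hxH⟩
  have hdivH : ∀ n : ℤ, n ≠ 0 → ∀ g : H, ∃ h : H, n • h = g := by
    intro n hn g
    obtain ⟨h, hh⟩ := hdiv n hn (g : G)
    exact ⟨⟨h, hH n hn h (by rw [hh]; exact g.2)⟩, Subtype.ext hh⟩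
  haveI : Nontrivial H := ⟨⟨e, he⟩, 0, fun h => he0 (congrArg Subtype.val h)⟩
  haveI := denselyOrdered_of_div hdivH
  haveI : NoMaxOrder H := ⟨noMax⟩
  haveI : NoMinOrder H := ⟨noMin⟩
  let R' : Finset H := R.attach.image fun r => ⟨r.1, hRH r.1 r.2⟩
  obtain ⟨y, hy1, hy2⟩ := Order.exists_between_finsets (α := H)
    (R'.filter fun r : H => (r : G) < x) (R'.filter fun r : H => x < (r : G)) (by
    intro a ha b hb
    exact (Finset.mem_filter.1 ha).2.trans (Finset.mem_filter.1 hb).2)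
  refine ⟨y, (hR x y fun r hr => ?_).1 hx, y.2⟩
  have hr' : (⟨r, hRH r hr⟩ : H) ∈ R' :=
    Finset.mem_image.2 ⟨⟨r, hr⟩, Finset.mem_attach _ _, rfl⟩
  have hne : r ≠ x := fun h => hxH (h ▸ hRH r hr)
  rcases lt_or_gt_of_ne hne with h | h
  · have h3 : r < (y : G) := hy1 _ (Finset.mem_filter.2 ⟨hr', h⟩)
    exact ⟨⟨fun h' => absurd h' h.not_gt, fun h' => absurd h' h3.not_gt⟩,
      ⟨fun _ => h3, fun _ => h⟩⟩
  · have h3 : (y : G) < r := hy2 _ (Finset.mem_filter.2 ⟨hr', h⟩)
    exact ⟨⟨fun _ => h3, fun _ => h⟩, ⟨fun h' => absurd h' h.not_gt,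
      fun h' => absurd h' h3.not_gt⟩⟩

include hdiv in
/-- definable sets are finite unions of points and intervals -/
theorem finite_union (S : Set G) (hS : (Set.univ : Set G).Definable₁ Log S) :
    ∃ C : Set (Set G), C.Finite ∧ (∀ I ∈ C, PointOrInterval I) ∧ S = ⋃₀ C := by
  classical
  obtain ⟨R, -, hR⟩ := definable_roots hdiv ⊤ (fun _ _ _ _ => trivial) Set.univ
    (fun _ _ => trivial) S hS
  let cl : G → Set G := fun x => {y | ∀ r ∈ R, (x < r ↔ y < r) ∧ (r < x ↔ r < y)}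
  refine ⟨cl '' S, ?_, ?_, ?_⟩
  · -- finitely many classes
    let F : G → (R → Prop × Prop) := fun x r => (x < r.1, r.1 < x)
    have hF : ∀ x y, F x = F y → cl x = cl y := by
      intro x y h
      ext z
      have h1 : ∀ r ∈ R, (x < r ↔ y < r) ∧ (r < x ↔ r < y) := fun r hr => by
        have := congrFun h ⟨r, hr⟩
        exact ⟨iff_of_eq (congrArg Prod.fst this), iff_of_eq (congrArg Prod.snd this)⟩
      exact ⟨fun hz r hr => ⟨(h1 r hr).1.symm.trans (hz r hr).1,
        (h1 r hr).2.symm.trans (hz r hr).2⟩, fun hz r hr => ⟨(h1 r hr).1.trans (hz r hr).1,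
        (h1 r hr).2.trans (hz r hr).2⟩⟩
    have hfin : (Set.range cl).Finite := by
      have : (Set.range fun x => (F x, cl x)).Finite := by
        have h2 : Set.InjOn Prod.fst (Set.range fun x => (F x, cl x)) := by
          rintro _ ⟨x, rfl⟩ _ ⟨y, rfl⟩ h
          exact Prod.ext h (hF x y h)
        exact Set.Finite.of_finite_image (Set.toFinite _) h2
      have h3 : Set.range cl = Prod.snd '' (Set.range fun x => (F x, cl x)) := by
        rw [← Set.range_comp]; rfl
      rw [h3]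
      exact this.image _
    exact hfin.subset (Set.image_subset_range _ _)
  · rintro _ ⟨x, -, rfl⟩
    by_cases hxR : x ∈ R
    · left
      refine ⟨x, ?_⟩
      ext y
      constructor
      · intro hy
        have := hy x hxR
        exact le_antisymm (not_lt.1 fun h => lt_irrefl _ (this.2.2 h))
          (not_lt.1 fun h => lt_irrefl _ (this.1.2 h))
      · rintro rfl r _
        exact ⟨Iff.rfl, Iff.rfl⟩
    · right
      have hne : ∀ r ∈ R, r < x ∨ x < r := fun r hr =>
        lt_or_gt_of_ne fun h => hxR (h ▸ hr)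
      have hcl : cl x = {y | (∀ r ∈ R.filter (· < x), r < y) ∧ ∀ r ∈ R.filter (x < ·), y < r} := by
        ext y
        constructor
        · intro hy
          exact ⟨fun r hr => ((hy r (Finset.mem_filter.1 hr).1).2).1 (Finset.mem_filter.1 hr).2,
            fun r hr => ((hy r (Finset.mem_filter.1 hr).1).1).1 (Finset.mem_filter.1 hr).2⟩
        · rintro ⟨h1, h2⟩ r hr
          rcases hne r hr with h | h
          · have h3 := h1 r (Finset.mem_filter.2 ⟨hr, h⟩)
            exact ⟨⟨fun h' => absurd h' h.not_gt, fun h' => absurd h' h3.not_gt⟩,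
              ⟨fun _ => h3, fun _ => h⟩⟩
          · have h3 := h2 r (Finset.mem_filter.2 ⟨hr, h⟩)
            exact ⟨⟨fun _ => h3, fun _ => h⟩, ⟨fun h' => absurd h' h.not_gt,
              fun h' => absurd h' h3.not_gt⟩⟩
      have hlow : (R.filter (· < x) = ∅) ∨ ∃ a, ∀ y, (∀ r ∈ R.filter (· < x), r < y) ↔ a < y := by
        by_cases h : (R.filter (· < x)).Nonempty
        · right
          obtain ⟨a, ha, hmax⟩ := (R.filter (· < x)).exists_max_image id h
          exact ⟨a, fun y => ⟨fun h => h a ha, fun h r hr => lt_of_le_of_lt (hmax r hr) h⟩⟩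
        · left; exact Finset.not_nonempty_iff_eq_empty.1 h
      have hhigh : (R.filter (x < ·) = ∅) ∨ ∃ b, ∀ y, (∀ r ∈ R.filter (x < ·), y < r) ↔ y < b := by
        by_cases h : (R.filter (x < ·)).Nonempty
        · right
          obtain ⟨a, ha, hmin⟩ := (R.filter (x < ·)).exists_min_image id h
          exact ⟨a, fun y => ⟨fun h => h a ha, fun h r hr => lt_of_lt_of_le h (hmin r hr)⟩⟩
        · left; exact Finset.not_nonempty_iff_eq_empty.1 h
      rw [hcl]
      rcases hlow with h1 | ⟨a, ha⟩ <;> rcases hhigh with h2 | ⟨b, hb⟩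
      · right; right; right
        ext y
        simp [h1, h2]
      · right; right; left
        refine ⟨b, ?_⟩
        ext y
        show ((∀ r ∈ R.filter (· < x), r < y) ∧ ∀ r ∈ R.filter (x < ·), y < r) ↔ y < b
        rw [hb, h1]
        simp
      · right; left
        refine ⟨a, ?_⟩
        ext y
        show ((∀ r ∈ R.filter (· < x), r < y) ∧ ∀ r ∈ R.filter (x < ·), y < r) ↔ a < y
        rw [ha, h2]
        simp
      · left
        refine ⟨a, b, ?_⟩
        ext y
        show ((∀ r ∈ R.filter (· < x), r < y) ∧ ∀ r ∈ R.filter (x < ·), y < r) ↔ a < y ∧ y < b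
        rw [ha, hb]
  · ext x
    constructor
    · intro hx
      exact ⟨cl x, ⟨x, hx, rfl⟩, fun r _ => ⟨Iff.rfl, Iff.rfl⟩⟩
    · rintro ⟨_, ⟨y, hy, rfl⟩, hxy⟩
      exact (hR y x hxy).1 hy

end defsets

theorem T0_complete : T0.IsComplete := completeTheory.isComplete Log ℚ

theorem T0_oMinimal : OMinimal T0 := by
  intro N S _ hN
  obtain ⟨A, O, hS, hmon, hnt, hdiv⟩ := exists_oag N hN
  subst hS
  haveI := denselyOrdered_of_div hdiv
  refine ⟨inferInstanceAs (IsStrictTotalOrder N (· < ·)), fun x y h => exists_between h, noMax,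
    noMin, fun S hS => finite_union hdiv S hS⟩

/-! ### The cut of `√2` -/

section cut

variable {U N : Type} [AddCommGroup U] [LinearOrder U] [IsOrderedAddMonoid U] [Nontrivial U]
  [AddCommGroup N] [LinearOrder N] [IsOrderedAddMonoid N] [Nontrivial N]
variable (hU : ∀ n : ℤ, n ≠ 0 → ∀ g : U, ∃ h : U, n • h = g)
  (hN : ∀ n : ℤ, n ≠ 0 → ∀ g : N, ∃ h : N, n • h = g)
variable (j : U ↪ₑ[Log] N)

/-- the embedding as a homomorphism -/
def jh : U →+ N where
  toFun := j
  map_zero' := j.map_fun (GFun.zero : Log.Functions 0) default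
  map_add' x y := by
    have := j.map_fun (GFun.add : Log.Functions 2) ![x, y]
    exact this

theorem jh_lt (x y : U) : jh j x < jh j y ↔ x < y := by
  have := j.map_rel (GRel.lt : Log.Relations 2) ![x, y]
  exact this

/-- the upper part of the cut of `√2 e` -/
def Up (e : U) : Set U := {d | ∃ m n : ℕ, 0 < n ∧ 2 * n ^ 2 < m ^ 2 ∧ m • e ≤ n • d}

theorem Up.mono {e d d' : U} (h : d ∈ Up e) (hd : d ≤ d') : d' ∈ Up e := by
  obtain ⟨m, n, hn, h2, h3⟩ := h
  exact ⟨m, n, hn, h2, h3.trans (nsmul_le_nsmul_right hd n)⟩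

theorem not_Up {e : U} (he : 0 < e) {m n : ℕ} (hn : 0 < n) (hmn : m ^ 2 < 2 * n ^ 2) {d : U}
    (hd : n • d = m • e) : d ∉ Up e := by
  rintro ⟨m', n', hn', h2, h3⟩
  have h4 : (n * m') • e ≤ (n' * m) • e := by
    calc (n * m') • e = n • (m' • e) := by rw [mul_smul]
      _ ≤ n • (n' • d) := nsmul_le_nsmul_right h3 n
      _ = n' • (n • d) := by rw [smul_smul, smul_smul, mul_comm]
      _ = (n' * m) • e := by rw [hd, smul_smul]
  have h5 : n * m' ≤ n' * m := by
    by_contra hcon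
    push Not at hcon
    exact absurd h4 (not_le.2 (nsmul_lt_nsmul_left he hcon))
  have h6 : (n * m') ^ 2 ≤ (n' * m) ^ 2 := Nat.pow_le_pow_left h5 2
  have h7 : (n' * m) ^ 2 < 2 * (n * n') ^ 2 := by
    rw [mul_pow, mul_pow]
    nlinarith [pow_pos hn' 2]
  have h8 : 2 * (n * n') ^ 2 < (n * m') ^ 2 := by
    rw [mul_pow, mul_pow]
    nlinarith [pow_pos hn 2]
  omega

theorem tf {G : Type} [AddCommGroup G] [LinearOrder G] [IsOrderedAddMonoid G] {m : ℤ} (hm : m ≠ 0)
    {x y : G} (h : m • x = m • y) : x = y := by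
  have h1 : m • (x - y) = m • (0 : G) := by rw [smul_sub, h, sub_self, smul_zero]
  have h2 : SS (x - y) (0 : G) := (ss_zsmul hm).1 (by rw [h1]; exact ⟨Iff.rfl, Iff.rfl⟩)
  exact sub_eq_zero.1 (h2.eq_zero.2 rfl)

/-- `x` realises the type just below the upper part of the cut. -/
def InCut (e : U) (x : N) : Prop := (∀ d, d ∉ Up e → jh j d < x) ∧ ∀ d ∈ Up e, x < jh j d

include hU in
theorem ss_cut {e : U} {x y : N} (hx : InCut j e x) (hy : InCut j e y) {u u' : U} (m : ℤ)
    (hs : SS u u')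
    (hr : m ≠ 0 → ∀ r r' : U, m • r = -u → m • r' = -u' → (r ∈ Up e ↔ r' ∈ Up e)) :
    SS (jh j u + m • x) (jh j u' + m • y) := by
  by_cases hm : m = 0
  · subst hm
    rw [zero_smul, zero_smul, add_zero, add_zero]
    have e0 : (0 : N) = jh j 0 := (map_zero _).symm
    unfold SS
    rw [e0, jh_lt, jh_lt, jh_lt, jh_lt]
    exact hs
  · obtain ⟨r, hr1⟩ := hU m hm (-u)
    obtain ⟨r', hr2⟩ := hU m hm (-u')
    have e1 : jh j u + m • x = m • (x - jh j r) := by
      rw [smul_sub, ← map_zsmul, hr1, map_neg]; abel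
    have e2 : jh j u' + m • y = m • (y - jh j r') := by
      rw [smul_sub, ← map_zsmul, hr2, map_neg]; abel
    rw [e1, e2, ss_zsmul hm]
    have h3 := hr hm r r' hr1 hr2
    unfold SS
    rw [sub_neg, sub_neg, sub_pos, sub_pos]
    by_cases h : r ∈ Up e
    · have h4 := hx.2 r h
      have h5 := hy.2 r' (h3.1 h)
      exact ⟨⟨fun _ => h5, fun _ => h4⟩, ⟨fun h' => absurd h' h4.not_gt,
        fun h' => absurd h' h5.not_gt⟩⟩
    · have h4 := hx.1 r h
      have h5 := hy.1 r' (fun h' => h (h3.2 h'))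
      exact ⟨⟨fun h' => absurd h' h4.not_gt, fun h' => absurd h' h5.not_gt⟩,
        ⟨fun _ => h5, fun _ => h4⟩⟩

theorem ev_two {n : ℕ} (f : Form N (Fin n ⊕ Unit)) (hf : f.2 = 0) (a : Fin n → U) (x : N) :
    ev f (Sum.elim (j ∘ a) fun _ => x) =
      jh j (∑ i, f.1 (Sum.inl i) • a i) + f.1 (Sum.inr ()) • x := by
  unfold ev
  rw [hf, add_zero, Fintype.sum_sum_type, map_sum]
  simp only [Sum.elim_inl, Sum.elim_inr, Finset.univ_unique, Finset.sum_singleton,
    Function.comp_apply, map_zsmul]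
  rfl

include hN in
theorem formula_sign {n : ℕ} (φ : Log.Formula (Fin n ⊕ Unit)) :
    ∃ Fs : Set (Form N (Fin n ⊕ Unit)), (∀ f ∈ Fs, f.2 = 0) ∧
      ∀ v v' : Fin n ⊕ Unit → N, (∀ f ∈ Fs, SS (ev f v) (ev f v')) →
        (φ.Realize v ↔ φ.Realize v') := by
  classical
  obtain ⟨Fs, -, hF0, hF⟩ := formula_sdH (H := (⊥ : AddSubgroup N)) hN (m := 0) φ (Fin n ⊕ Unit)
    (fun i => (Pi.single i 1, 0)) (fun i => i.elim0) (fun _ => rfl) (fun i => i.elim0)
  refine ⟨Fs, fun f hf => hF0 f hf, fun v v' h => ?_⟩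
  have e1 : ∀ v : Fin n ⊕ Unit → N, (fun b => ev ((Pi.single b 1, 0) : Form N (Fin n ⊕ Unit)) v)
      = v := fun v => funext fun b => ev_var _ _
  have key : ∀ v : Fin n ⊕ Unit → N, φ.Realize v ↔ BoundedFormula.Realize φ
      (fun b => ev ((Pi.single b 1, 0) : Form N (Fin n ⊕ Unit)) v)
      (fun i => ev ((fun i => i.elim0 : Fin 0 → Form N (Fin n ⊕ Unit)) i) v) := by
    intro v
    rw [e1]
    unfold Language.Formula.Realize
    exact iff_of_eq (congrArg _ (Subsingleton.elim _ _))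
  rw [key v, key v']
  exact hF v v' h

include hU hN in
theorem tp_eq {e : U} {x y : N} (hx : InCut j e x) (hy : InCut j e y) : tp j x = tp j y := by
  ext ⟨n, φ, a⟩
  obtain ⟨Fs, hF0, hF⟩ := formula_sign hN φ
  refine hF _ _ fun f hf => ?_
  show SS (ev f (Sum.elim (j ∘ a) fun _ => x)) (ev f (Sum.elim (j ∘ a) fun _ => y))
  rw [ev_two j f (hF0 f hf), ev_two j f (hF0 f hf)]
  refine ss_cut hU j hx hy _ ⟨Iff.rfl, Iff.rfl⟩ fun hm r r' h1 h2 => ?_
  rw [tf hm (h1.trans h2.symm)]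

include hU hN in
theorem invariant {e : U} {x : N} (hx : InCut j e x) (M : Set U) (he : e ∈ M) :
    Invariant M (tp j x) := by
  intro σ hσ ⟨n, φ, a⟩
  obtain ⟨Fs, hF0, hF⟩ := formula_sign hN φ
  let σh : U →+ U :=
    { toFun := σ
      map_zero' := σ.map_fun (GFun.zero : Log.Functions 0) default
      map_add' := fun x y => σ.map_fun (GFun.add : Log.Functions 2) ![x, y] }
  have hlt : ∀ x y, σh x < σh y ↔ x < y := fun x y =>
    σ.map_rel (GRel.lt : Log.Relations 2) ![x, y]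
  refine hF _ _ fun f hf => ?_
  show SS (ev f (Sum.elim (j ∘ a) fun _ => x)) (ev f (Sum.elim (j ∘ (σ ∘ a)) fun _ => x))
  rw [ev_two j f (hF0 f hf), ev_two j f (hF0 f hf)]
  have hsum : ∑ i, f.1 (Sum.inl i) • (σ ∘ a) i = σh (∑ i, f.1 (Sum.inl i) • a i) := by
    rw [map_sum]
    exact Finset.sum_congr rfl fun i _ => (map_zsmul σh _ _).symm
  rw [hsum]
  have hle : ∀ x y, σh x ≤ σh y ↔ x ≤ y := fun x y => by
    rw [← not_lt, ← not_lt, hlt]
  have hUp : ∀ r, r ∈ Up e ↔ σh r ∈ Up e := by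
    intro r
    have h1 : σh e = e := hσ e he
    unfold Up
    constructor
    · rintro ⟨m, n, hn, h2, h3⟩
      refine ⟨m, n, hn, h2, ?_⟩
      rw [← h1, ← map_nsmul, ← map_nsmul, hle]
      exact h3
    · rintro ⟨m, n, hn, h2, h3⟩
      refine ⟨m, n, hn, h2, ?_⟩
      rw [← h1, ← map_nsmul, ← map_nsmul, hle] at h3
      exact h3
  refine ss_cut hU j hx hx _ ?_ fun hm r r' h1 h2 => ?_
  · have h0 : σh 0 = 0 := map_zero σh
    unfold SS
    rw [← hlt _ 0, ← hlt 0, h0]
    exact ⟨Iff.rfl, Iff.rfl⟩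
  · have : r' = σh r := tf hm (by rw [h2, ← map_zsmul, h1, map_neg])
    rw [this]
    exact hUp r

/-! ### The definable closure of `M` and a realisation -/

include hU in
theorem cut_lower {e : U} (he : 0 < e) {x : N} (hx : InCut j e x) {m Q : ℕ} (hQ : 0 < Q)
    (h : m ^ 2 < 2 * Q ^ 2) : m • jh j e < Q • x := by
  obtain ⟨d, hd⟩ := hU Q (by exact_mod_cast hQ.ne') (m • e)
  rw [natCast_zsmul] at hd
  have h1 := hx.1 d (not_Up he hQ h hd)
  rw [← map_nsmul, ← hd, map_nsmul]
  exact nsmul_lt_nsmul_right hQ.ne' h1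

include hU in
theorem cut_upper {e : U} {x : N} (hx : InCut j e x) {m Q : ℕ} (hQ : 0 < Q)
    (h : 2 * Q ^ 2 < m ^ 2) : Q • x < m • jh j e := by
  obtain ⟨d, hd⟩ := hU Q (by exact_mod_cast hQ.ne') (m • e)
  rw [natCast_zsmul] at hd
  have h1 := hx.2 d ⟨m, Q, hQ, h, hd.ge⟩
  rw [← map_nsmul, ← hd, map_nsmul]
  exact nsmul_lt_nsmul_right hQ.ne' h1

theorem exists_floor (Q : ℕ) (hQ : 0 < Q) : ∃ m : ℕ, m ^ 2 < 2 * Q ^ 2 ∧ 2 * Q ^ 2 < (m + 1) ^ 2 ∧
    |Real.sqrt 2 * Q - m| ≤ 1 := by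
  have h2 : (0 : ℝ) ≤ Real.sqrt 2 * Q := by positivity
  have hs : Real.sqrt 2 ^ 2 = 2 := Real.sq_sqrt (by norm_num)
  refine ⟨⌊Real.sqrt 2 * Q⌋₊, ?_, ?_, ?_⟩
  · have h1 := Nat.floor_le h2
    have h3 : ((⌊Real.sqrt 2 * Q⌋₊ : ℕ) : ℝ) ^ 2 ≤ 2 * (Q : ℝ) ^ 2 := by
      calc _ ≤ (Real.sqrt 2 * Q) ^ 2 := by gcongr
        _ = 2 * (Q : ℝ) ^ 2 := by rw [mul_pow, hs]
    have h4 : ⌊Real.sqrt 2 * Q⌋₊ ^ 2 ≤ 2 * Q ^ 2 := by exact_mod_cast h3
    refine lt_of_le_of_ne h4 fun h5 => ?_
    have h6 : ((⌊Real.sqrt 2 * Q⌋₊ : ℕ) : ℝ) ^ 2 = 2 * (Q : ℝ) ^ 2 := by exact_mod_cast h5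
    have h7 : ((⌊Real.sqrt 2 * Q⌋₊ : ℕ) : ℝ) = Real.sqrt 2 * Q := by
      rw [← sq_eq_sq₀ (by positivity) h2, h6, mul_pow, hs]
    have hQ' : (Q : ℝ) ≠ 0 := by exact_mod_cast hQ.ne'
    apply irrational_sqrt_two
    exact ⟨(⌊Real.sqrt 2 * Q⌋₊ : ℕ) / Q, by push_cast; rw [h7]; field_simp⟩
  · have h1 := Nat.lt_floor_add_one (Real.sqrt 2 * Q)
    have h3 : 2 * (Q : ℝ) ^ 2 < ((⌊Real.sqrt 2 * Q⌋₊ : ℕ) + 1 : ℝ) ^ 2 := by
      calc 2 * (Q : ℝ) ^ 2 = (Real.sqrt 2 * Q) ^ 2 := by rw [mul_pow, hs]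
        _ < _ := by gcongr
    exact_mod_cast h3
  · rw [abs_le]
    constructor
    · have := Nat.floor_le h2
      linarith
    · have := Nat.lt_floor_add_one (Real.sqrt 2 * Q)
      linarith

include hU hN in
/-- an element of `dcl(M b)` in the cut is `b` -/
theorem eq_of_mem_dcl {e : U} (he : 0 < e) {b x : N} (hb : InCut j e b) (hx : InCut j e x)
    (M : Set U) (hM : ∀ μ ∈ M, ∃ n : ℤ, n ≠ 0 ∧ ∃ m : ℤ, n • μ = m • e)
    (hxd : x ∈ dcl (j '' M ∪ {b})) : x = b := by
  -- the divisible hull of `e` and `b`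
  let H : AddSubgroup N :=
    { carrier := {y | ∃ K : ℤ, K ≠ 0 ∧ ∃ S R : ℤ, K • y = S • jh j e + R • b}
      zero_mem' := ⟨1, one_ne_zero, 0, 0, by simp⟩
      add_mem' := by
        rintro y z ⟨K, hK, S, R, h⟩ ⟨K', hK', S', R', h'⟩
        refine ⟨K * K', mul_ne_zero hK hK', K' * S + K * S', K' * R + K * R', ?_⟩
        rw [smul_add, mul_comm K K', mul_smul, h, mul_comm K' K, mul_smul, h']
        simp only [smul_add, add_smul, mul_smul]
        abel
      neg_mem' := by
        rintro y ⟨K, hK, S, R, h⟩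
        exact ⟨K, hK, -S, -R, by rw [smul_neg, h, neg_smul, neg_smul]; abel⟩ }
  have hHdiv : ∀ n : ℤ, n ≠ 0 → ∀ y : N, n • y ∈ H → y ∈ H := by
    rintro n hn y ⟨K, hK, S, R, h⟩
    exact ⟨K * n, mul_ne_zero hK hn, S, R, by rw [mul_smul, h]⟩
  have hsub : (j '' M ∪ {b}) ⊆ (H : Set N) := by
    rintro y (⟨μ, hμ, rfl⟩ | hy)
    · obtain ⟨n, hn, m, h⟩ := hM μ hμ
      refine ⟨n, hn, m, 0, ?_⟩
      rw [zero_smul, add_zero]
      show n • jh j μ = m • jh j e
      rw [← map_zsmul, h, map_zsmul]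
    · rw [Set.mem_singleton_iff.1 hy]
      exact ⟨1, one_ne_zero, 0, 1, by simp⟩
  obtain ⟨K, hK, S, R, hKSR⟩ := mem_of_mem_dcl hN H hHdiv _ hsub x hxd
  -- approximations of `√2`
  have hje : 0 < jh j e := by
    rw [← map_zero (jh j), jh_lt]; exact he
  have hbound : ∀ Q m : ℕ, 0 < Q → m ^ 2 < 2 * Q ^ 2 → 2 * Q ^ 2 < (m + 1) ^ 2 →
      |(K - R) * m - Q * S| ≤ |R| + |K| := by
    intro Q m hQ h1 h2
    have hx1 := cut_lower hU j he hx hQ h1
    have hx2 := cut_upper hU j hx hQ h2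
    have hb1 := cut_lower hU j he hb hQ h1
    have hb2 := cut_upper hU j hb hQ h2
    rw [succ_nsmul] at hx2 hb2
    set δx := Q • x - m • jh j e with hδx
    set δb := Q • b - m • jh j e with hδb
    have a1 : 0 < δx := sub_pos.2 hx1
    have a2 : 0 < δb := sub_pos.2 hb1
    have a3 : δx ≤ jh j e := by rw [hδx, sub_le_iff_le_add]; rw [add_comm]; exact hx2.le
    have a4 : δb ≤ jh j e := by rw [hδb, sub_le_iff_le_add]; rw [add_comm]; exact hb2.le
    have e1 : ((K - R) * m - Q * S) • jh j e = R • δb - K • δx := by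
      have e2 : (Q : ℤ) • (K • x) = (Q : ℤ) • (S • jh j e + R • b) := by rw [hKSR]
      rw [hδx, hδb]
      simp only [← natCast_zsmul, smul_sub, smul_add, smul_smul, sub_smul] at e2 ⊢
      rw [sub_mul, sub_smul, mul_comm K (Q : ℤ), e2, mul_comm R (Q : ℤ)]
      abel
    have e3 : |(K - R) * m - Q * S| • jh j e ≤ (|R| + |K|) • jh j e := by
      calc |(K - R) * m - Q * S| • jh j e = |((K - R) * m - Q * S) • jh j e| := by
            rw [abs_zsmul, abs_of_pos hje]
        _ = |R • δb - K • δx| := by rw [e1]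
        _ ≤ |R • δb| + |K • δx| := abs_sub _ _
        _ = |R| • δb + |K| • δx := by rw [abs_zsmul, abs_zsmul, abs_of_pos a1, abs_of_pos a2]
        _ ≤ |R| • jh j e + |K| • jh j e :=
            add_le_add (zsmul_le_zsmul_right (abs_nonneg _) a4)
              (zsmul_le_zsmul_right (abs_nonneg _) a3)
        _ = (|R| + |K|) • jh j e := by rw [add_smul]
    exact (zsmul_le_zsmul_iff_left hje).1 e3
  have hreal : ((K - R : ℤ) : ℝ) * Real.sqrt 2 = S := by
    have hC : ∀ Q : ℕ, 0 < Q → |((K - R : ℤ) : ℝ) * Real.sqrt 2 - S| * Q ≤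
        |((K - R : ℤ) : ℝ)| + ((|R| + |K| : ℤ) : ℝ) := by
      intro Q hQ
      obtain ⟨m, h1, h2, h3⟩ := exists_floor Q hQ
      have h4 := hbound Q m hQ h1 h2
      have h5 : |((K - R : ℤ) : ℝ) * m - Q * S| ≤ ((|R| + |K| : ℤ) : ℝ) := by
        exact_mod_cast h4
      calc |((K - R : ℤ) : ℝ) * Real.sqrt 2 - S| * Q
          = |((K - R : ℤ) : ℝ) * (Real.sqrt 2 * Q - m) + (((K - R : ℤ) : ℝ) * m - Q * S)| := by
            rw [← abs_of_nonneg (Nat.cast_nonneg (α := ℝ) Q), ← abs_mul,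
              abs_of_nonneg (Nat.cast_nonneg (α := ℝ) Q)]
            congr 1
            ring
        _ ≤ |((K - R : ℤ) : ℝ) * (Real.sqrt 2 * Q - m)| + |((K - R : ℤ) : ℝ) * m - Q * S| :=
            abs_add_le _ _
        _ ≤ |((K - R : ℤ) : ℝ)| + ((|R| + |K| : ℤ) : ℝ) := by
            rw [abs_mul]
            have := mul_le_mul_of_nonneg_left h3 (abs_nonneg ((K - R : ℤ) : ℝ))
            linarith
    by_contra hne
    have hpos : 0 < |((K - R : ℤ) : ℝ) * Real.sqrt 2 - S| := abs_pos.2 (sub_ne_zero.2 hne)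
    obtain ⟨Q, hQ⟩ := exists_nat_gt
      ((|((K - R : ℤ) : ℝ)| + ((|R| + |K| : ℤ) : ℝ)) / |((K - R : ℤ) : ℝ) * Real.sqrt 2 - S|)
    rw [div_lt_iff₀ hpos] at hQ
    have h0 : 0 < Q := by
      rcases Nat.eq_zero_or_pos Q with h | h
      · subst h
        rw [Nat.cast_zero, zero_mul] at hQ
        have : (0 : ℝ) ≤ |((K - R : ℤ) : ℝ)| + ((|R| + |K| : ℤ) : ℝ) := by
          push_cast
          positivity
        linarith
      · exact h
    have := hC Q h0
    rw [mul_comm] at this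
    linarith
  have hKR : K - R = 0 := by
    by_contra hne
    apply irrational_sqrt_two
    have hne' : ((K - R : ℤ) : ℝ) ≠ 0 := by exact_mod_cast hne
    refine ⟨(S : ℚ) / ((K - R : ℤ) : ℚ), ?_⟩
    push_cast at hreal hne' ⊢
    rw [← hreal]
    field_simp
  have hS : S = 0 := by
    rw [hKR] at hreal
    have : (S : ℝ) = 0 := by rw [← hreal]; simp
    exact_mod_cast this
  rw [hS, zero_smul, zero_add, ← sub_eq_zero.1 hKR] at hKSR
  exact tf hK hKSR

end cut

/-! ### The extension and the infinitesimal -/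

section ext

variable {U : Type} [AddCommGroup U] [LinearOrder U] [IsOrderedAddMonoid U] [Nontrivial U]
variable (hU : ∀ n : ℤ, n ≠ 0 → ∀ g : U, ∃ h : U, n • h = g)

include hU in
/-- an elementary extension containing a realisation of the cut -/
theorem exists_ext {e : U} (he : 0 < e) :
    ∃ (N : Type) (_ : Log.Structure N) (j : U ↪ₑ[Log] N) (b : N),
      (∀ d, d ∉ Up e → slt (j d) b) ∧ ∀ d ∈ Up e, slt b (j d) := by
  classical
  haveI := denselyOrdered_of_div hU
  let I := {d : U // d ∉ Up e} × {d : U // d ∈ Up e}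
  haveI : Nonempty {d : U // d ∉ Up e} := ⟨0, by
    rintro ⟨m, n, hn, h2, h3⟩
    rw [smul_zero] at h3
    have hm : 0 < m := by
      rcases Nat.eq_zero_or_pos m with h | h
      · subst h; simp at h2
      · exact h
    exact absurd h3 (not_le.2 (nsmul_pos he hm.ne'))⟩
  haveI : Nonempty {d : U // d ∈ Up e} := ⟨2 • e, 2, 1, one_pos, by norm_num, by rw [one_smul]⟩
  let F : Filter I := Filter.atTop ×ˢ Filter.atBot
  let u : Ultrafilter I := Ultrafilter.of F
  have hle : (u : Filter I) ≤ F := Ultrafilter.of_le F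
  have hlt : ∀ i : I, i.1.1 < i.2.1 := by
    intro i
    by_contra hcon
    exact i.1.2 (Up.mono i.2.2 (not_lt.1 hcon))
  choose f hf1 hf2 using fun i : I => exists_between (hlt i)
  let j : U ↪ₑ[Log] (u : Filter I).Product (fun _ => U) :=
    { toFun := fun d => ((fun _ => d : I → U) : (u : Filter I).Product (fun _ => U))
      map_formula' := by
        intro n φ x
        have := Ultraproduct.realize_formula_cast (u := u) (M := fun _ : I => U) φ
          (fun i _ => x i)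
        refine this.trans ?_
        exact Filter.eventually_const }
  have hrel : ∀ x y : I → U, (∀ᶠ i in (u : Filter I), x i < y i) →
      slt ((x : (u : Filter I).Product (fun _ => U))) (y : (u : Filter I).Product (fun _ => U)) := by
    intro x y h
    have := Ultraproduct.realize_formula_cast (u := u) (M := fun _ : I => U)
      (ltF (Term.var (0 : Fin 2)) (Term.var 1)) (fun i => if i = 0 then x else y)
    have h2 := this.2 (h.mono fun i hi => by
      rw [real_ltF]
      show (if (0 : Fin 2) = 0 then x else y) i < (if (1 : Fin 2) = 0 then x else y) i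
      simpa using hi)
    rw [real_ltF] at h2
    exact h2
  refine ⟨_, inferInstance, j, (f : (u : Filter I).Product (fun _ => U)), ?_, ?_⟩
  · intro d hd
    refine hrel _ _ ?_
    have h1 : ∀ᶠ i : I in F, (⟨d, hd⟩ : {d : U // d ∉ Up e}) ≤ i.1 :=
      (Filter.eventually_ge_atTop _).prod_inl _
    have h2 : ∀ᶠ i : I in (u : Filter I), (⟨d, hd⟩ : {d : U // d ∉ Up e}) ≤ i.1 := hle h1
    exact h2.mono fun i hi => lt_of_le_of_lt hi (hf1 i)
  · intro d hd
    refine hrel _ _ ?_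
    have h1 : ∀ᶠ i : I in F, i.2 ≤ (⟨d, hd⟩ : {d : U // d ∈ Up e}) :=
      (Filter.eventually_le_atBot _).prod_inr _
    have h2 : ∀ᶠ i : I in (u : Filter I), i.2 ≤ (⟨d, hd⟩ : {d : U // d ∈ Up e}) := hle h1
    exact h2.mono fun i hi => lt_of_lt_of_le (hf2 i) hi

theorem realize_nTerm' {α : Type} (t : Log.Term α) (n : ℕ) (v : α → U) :
    (nTerm t n).realize v = n • t.realize v := by
  rw [realize_nTerm]
  induction n with
  | zero => rw [zero_smul]; rfl
  | succ n ih => rw [succ_nsmul, ← ih]; rfl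

include hU in
/-- saturation gives infinitesimals -/
theorem exists_eps {κ : Cardinal.{0}} (hκ : ℵ₀ < κ) (hsat : Saturated κ U) {e : U} (he : 0 < e) :
    ∃ ε : U, 0 < ε ∧ ∀ k : ℕ, k • ε < e := by
  classical
  let γ : ℕ → PFormula U := fun k =>
    ⟨1, ltF zr (Term.var (Sum.inr ())) ⊓ ltF (nTerm (Term.var (Sum.inr ())) k)
      (Term.var (Sum.inl 0)), fun _ => e⟩
  have hγ : ∀ k x, (γ k).2.1.Realize (Sum.elim (γ k).2.2 fun _ => x) ↔ 0 < x ∧ k • x < e := by
    intro k x
    show Formula.Realize (ltF zr (Term.var (Sum.inr ())) ⊓ ltF (nTerm (Term.var (Sum.inr ())) k)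
        (Term.var (Sum.inl 0)) : Log.Formula (Fin 1 ⊕ Unit)) _ ↔ _
    rw [Formula.realize_inf, real_ltF, real_ltF, realize_nTerm', real_zr]
    exact Iff.rfl
  obtain ⟨ε, hε⟩ := hsat {e} (by
      rw [Cardinal.mk_singleton]
      exact lt_trans Cardinal.one_lt_aleph0 hκ) (Set.range γ) (by
      rintro _ ⟨k, rfl⟩ i
      exact Set.mem_singleton _) (by
      intro Γ' hΓ' hfin
      have : ∃ K : ℕ, ∀ δ ∈ Γ', ∃ k ≤ K, γ k = δ := by
        have h1 : ∀ δ : Γ', ∃ k, γ k = δ := fun δ => hΓ' δ.2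
        choose g hg using h1
        haveI := hfin.to_subtype
        obtain ⟨K, hK⟩ := (Set.finite_range g).bddAbove
        exact ⟨K, fun δ hδ => ⟨g ⟨δ, hδ⟩, hK ⟨_, rfl⟩, hg ⟨δ, hδ⟩⟩⟩
      obtain ⟨K, hK⟩ := this
      obtain ⟨x, hx⟩ := hU ((K + 1 : ℕ) : ℤ) (by positivity) e
      rw [natCast_zsmul] at hx
      have hx0 : 0 < x := by
        by_contra hcon
        have := nsmul_nonpos (not_lt.1 hcon) (K + 1)
        rw [hx] at this
        exact absurd this (not_le.2 he)
      refine ⟨x, fun δ hδ => ?_⟩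
      obtain ⟨k, hk, rfl⟩ := hK δ hδ
      rw [hγ]
      refine ⟨hx0, ?_⟩
      rw [← hx]
      exact nsmul_lt_nsmul_left hx0 (by omega))
  refine ⟨ε, ((hγ 0 ε).1 (hε _ ⟨0, rfl⟩)).1, fun k => ((hγ k ε).1 (hε _ ⟨k, rfl⟩)).2⟩

theorem Up_sub {e ε : U} (he : ∀ k : ℕ, k • ε < e) {d : U} (hd : d ∈ Up e) : d - ε ∈ Up e := by
  obtain ⟨m, n, hn, h2, h3⟩ := hd
  -- a better approximation
  obtain ⟨t, ht⟩ : ∃ t : ℕ, 0 < t ∧ 2 * (t * n) ^ 2 < (t * m - 1) ^ 2 ∧ 1 ≤ t * m := by
    refine ⟨2 * m + 1, by omega, ?_, ?_⟩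
    · have hm : 1 ≤ m := by
        rcases Nat.eq_zero_or_pos m with h | h
        · subst h; simp at h2
        · exact h
      have h5 : 1 ≤ (2 * m + 1) * m := by nlinarith
      zify [h5]
      zify at h2 hm
      nlinarith [sq_nonneg ((2 * m + 1 : ℤ) * m), mul_pos (show (0 : ℤ) < 2 * m + 1 by omega)
        (show (0 : ℤ) < 2 * m + 1 by omega)]
    · have hm : 1 ≤ m := by
        rcases Nat.eq_zero_or_pos m with h | h
        · subst h; simp at h2
        · exact h
      nlinarith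
  obtain ⟨ht0, ht1, ht2⟩ := ht
  refine ⟨t * m - 1, t * n, Nat.mul_pos ht0 hn, ht1, ?_⟩
  have h4 : (t * m) • e ≤ (t * n) • d := by
    rw [mul_smul, mul_smul]
    exact nsmul_le_nsmul_right h3 t
  have h5 : (t * m) • e = (t * m - 1) • e + e := by
    conv_lhs => rw [show t * m = (t * m - 1) + 1 by omega]
    rw [succ_nsmul]
  have h6 := he (t * n)
  rw [smul_sub, le_sub_iff_add_le]
  calc (t * m - 1) • e + (t * n) • ε ≤ (t * m - 1) • e + e := by gcongr
    _ = (t * m) • e := h5.symm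
    _ ≤ _ := h4

include hU in
theorem main (hmod : U ⊨ T0) {κ : Cardinal.{0}} (hκ : ℵ₀ < κ) (hsat : Saturated κ U) :
    ∃ M : Log.ElementarySubstructure U, #M < κ ∧
      ∃ (N : Type) (_ : Log.Structure N) (j : U ↪ₑ[Log] N) (b : N),
        Invariant (M : Set U) (tp j b) ∧ SmallRight κ (tp j b) ∧
        ∃ c ∈ dcl (Set.range j ∪ {b}), tp j c = tp j b ∧
          ∀ x ∈ dcl (j '' (M : Set U) ∪ {b}), tp j x = tp j b → slt x c := by
  classical
  obtain ⟨e, he⟩ : ∃ e : U, 0 < e := noMax 0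
  -- the base
  let H : AddSubgroup U :=
    { carrier := {y | ∃ n : ℤ, n ≠ 0 ∧ ∃ m : ℤ, n • y = m • e}
      zero_mem' := ⟨1, one_ne_zero, 0, by simp⟩
      add_mem' := by
        rintro y z ⟨K, hK, S, h⟩ ⟨K', hK', S', h'⟩
        refine ⟨K * K', mul_ne_zero hK hK', K' * S + K * S', ?_⟩
        rw [smul_add, mul_comm K K', mul_smul, h, mul_comm K' K, mul_smul, h']
        simp only [add_smul, mul_smul]
      neg_mem' := by
        rintro y ⟨K, hK, S, h⟩
        exact ⟨K, hK, -S, by rw [smul_neg, h, neg_smul]⟩ }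
  have hHdiv : ∀ n : ℤ, n ≠ 0 → ∀ y : U, n • y ∈ H → y ∈ H := by
    rintro n hn y ⟨K, hK, S, h⟩
    exact ⟨K * n, mul_ne_zero hK hn, S, by rw [mul_smul, h]⟩
  have heH : e ∈ H := ⟨1, one_ne_zero, 1, rfl⟩
  have hmeet := meetsDefinable hU H hHdiv e heH he.ne'
  let M : Log.ElementarySubstructure U := hmeet.toElementarySubstructure
  have hMH : (M : Set U) = H := hmeet.closure_eq_self
  have hMcount : (M : Set U).Countable := by
    rw [hMH]
    have : ∀ y : H, ∃ p : ℤ × ℤ, p.1 ≠ 0 ∧ p.1 • (y : U) = p.2 • e := by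
      rintro ⟨y, n, hn, m, h⟩
      exact ⟨(n, m), hn, h⟩
    choose p hp1 hp2 using this
    have hinj : Function.Injective p := by
      intro y z hyz
      refine Subtype.ext (tf (hp1 y) ?_)
      rw [hp2 y, hyz, ← hp2 z]
    exact Set.countable_coe_iff.1 hinj.countable
  obtain ⟨N, SN, j, b, hb1, hb2⟩ := exists_ext hU he
  have hN0 : N ⊨ T0 := (j.theory_model_iff T0).1 hmod
  obtain ⟨A, O, hS, hmon, hnt, hN⟩ := exists_oag N hN0
  subst hS
  have hb : InCut j e b := ⟨hb1, hb2⟩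
  obtain ⟨ε, hε0, hε⟩ := exists_eps hU hκ hsat he
  have hjε : 0 < jh j ε := by rw [← map_zero (jh j), jh_lt]; exact hε0
  refine ⟨M, ?_, N, _, j, b, ?_, ?_, b + jh j ε, ?_, ?_, ?_⟩
  · exact lt_of_le_of_lt (Cardinal.mk_le_aleph0_iff.2 hMcount) hκ
  · refine invariant hU hN j hb _ ?_
    rw [hMH]; exact heH
  · -- small cofinality on the right
    have hright : right (tp j b) = Up e := by
      ext d
      have h1 : d ∈ right (tp j b) ↔ ¬ jh j d < b := by
        show (¬ Formula.Realize (ltF (Term.var (Sum.inl 0)) (Term.var (Sum.inr ())) :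
          Log.Formula (Fin 1 ⊕ Unit)) (Sum.elim (j ∘ fun _ => d) fun _ => b)) ↔ _
        rw [real_ltF]
        exact Iff.rfl
      rw [h1]
      constructor
      · intro h
        by_contra hcon
        exact h (hb.1 d hcon)
      · intro h h'
        exact lt_asymm h' (hb.2 d h)
    refine ⟨{d | ∃ m n : ℕ, 0 < n ∧ 2 * n ^ 2 < m ^ 2 ∧ n • d = m • e}, ?_, ?_, ?_⟩
    · rw [hright]
      rintro d ⟨m, n, hn, h2, h3⟩
      exact ⟨m, n, hn, h2, h3.ge⟩
    · refine lt_of_le_of_lt (Cardinal.mk_le_aleph0_iff.2 ?_) hκ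
      refine Set.Countable.mono ?_ (hMH ▸ hMcount)
      rintro d ⟨m, n, hn, h2, h3⟩
      exact ⟨n, by exact_mod_cast hn.ne', m, by rw [natCast_zsmul, natCast_zsmul, h3]⟩
    · rw [hright]
      rintro d ⟨m, n, hn, h2, h3⟩
      obtain ⟨s, hs⟩ := hU n (by exact_mod_cast hn.ne') (m • e)
      rw [natCast_zsmul] at hs
      refine ⟨s, ⟨m, n, hn, h2, hs⟩, fun h => ?_⟩
      have h4 : n • d < n • s := nsmul_lt_nsmul_right hn.ne' h
      rw [hs] at h4
      exact absurd h3 (not_le.2 h4)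
  · -- definability of `b + ε`
    show (Set.range j ∪ {b}).Definable₁ Log {b + jh j ε}
    unfold Set.Definable₁
    rw [Set.definable_iff_exists_formula_sum]
    refine ⟨Term.equal (ad (Term.var (Sum.inl ⟨b, Or.inr rfl⟩))
      (Term.var (Sum.inl ⟨j ε, Or.inl ⟨ε, rfl⟩⟩))) (Term.var (Sum.inr 0)), ?_⟩
    ext v
    show v 0 ∈ ({b + jh j ε} : Set N) ↔ _
    rw [Set.mem_singleton_iff]
    show _ ↔ Formula.Realize _ _
    rw [Formula.realize_equal]
    exact eq_comm
  · refine tp_eq hU hN j ⟨fun d hd => ?_, fun d hd => ?_⟩ hb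
    · exact (hb.1 d hd).trans (lt_add_of_pos_right b hjε)
    · have := hb.2 _ (Up_sub hε hd)
      rw [map_sub] at this
      exact lt_sub_iff_add_lt.1 this
  · intro x hx hxt
    have hxc : InCut j e x := by
      have h1 : ∀ d : U, (jh j d < x ↔ jh j d < b) := by
        intro d
        have h2 : (⟨1, ltF (Term.var (Sum.inl 0)) (Term.var (Sum.inr ())), fun _ => d⟩ : PFormula U) ∈ tp j x ↔
            (⟨1, ltF (Term.var (Sum.inl 0)) (Term.var (Sum.inr ())), fun _ => d⟩ : PFormula U) ∈ tp j b := by rw [hxt]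
        have h3 : ∀ y : N, (⟨1, ltF (Term.var (Sum.inl 0)) (Term.var (Sum.inr ())), fun _ => d⟩ : PFormula U) ∈ tp j y ↔ jh j d < y := by
          intro y
          show Formula.Realize (ltF (Term.var (Sum.inl 0)) (Term.var (Sum.inr ())) :
            Log.Formula (Fin 1 ⊕ Unit)) (Sum.elim (j ∘ fun _ => d) fun _ => y) ↔ _
          rw [real_ltF]
          exact Iff.rfl
        rw [h3, h3] at h2
        exact h2
      have h1' : ∀ d : U, (x < jh j d ↔ b < jh j d) := by
        intro d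
        have h2 : (⟨1, ltF (Term.var (Sum.inr ())) (Term.var (Sum.inl 0)), fun _ => d⟩ : PFormula U) ∈ tp j x ↔
            (⟨1, ltF (Term.var (Sum.inr ())) (Term.var (Sum.inl 0)), fun _ => d⟩ : PFormula U) ∈ tp j b := by rw [hxt]
        have h3 : ∀ y : N, (⟨1, ltF (Term.var (Sum.inr ())) (Term.var (Sum.inl 0)), fun _ => d⟩ : PFormula U) ∈ tp j y ↔ y < jh j d := by
          intro y
          show Formula.Realize (ltF (Term.var (Sum.inr ())) (Term.var (Sum.inl 0)) :
            Log.Formula (Fin 1 ⊕ Unit)) (Sum.elim (j ∘ fun _ => d) fun _ => y) ↔ _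
          rw [real_ltF]
          exact Iff.rfl
        rw [h3, h3] at h2
        exact h2
      exact ⟨fun d hd => (h1 d).2 (hb.1 d hd), fun d hd => (h1' d).2 (hb.2 d hd)⟩
    have hxb : x = b := eq_of_mem_dcl hU hN j he hb hxc M (fun μ hμ => by
      have : μ ∈ (H : Set U) := by rw [← hMH]; exact hμ
      exact this) hx
    rw [hxb]
    exact lt_add_of_pos_right b hjε

end ext

/-- **Counterexample to Q1.** `T0` is complete and o-minimal, and for every uncountable `κ` every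
`κ`-saturated model `U` of `T0` has a small elementary substructure `M` and an `M`-invariant global
type `p`, of small cofinality on the right and realised by `b`, such that some element of
`p(dcl(U b))` is larger than all elements of `p(dcl(M b))`. -/
theorem result : T0.IsComplete ∧ OMinimal T0 ∧
    ∀ κ : Cardinal.{0}, ℵ₀ < κ → ∀ (U : Type) [Log.Structure U] [Nonempty U], U ⊨ T0 →
      Saturated κ U →
      ∃ M : Log.ElementarySubstructure U, #M < κ ∧
        ∃ (N : Type) (_ : Log.Structure N) (j : U ↪ₑ[Log] N) (b : N),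
          Invariant (M : Set U) (tp j b) ∧ SmallRight κ (tp j b) ∧
          ∃ c ∈ dcl (Set.range j ∪ {b}), tp j c = tp j b ∧
            ∀ x ∈ dcl (j '' (M : Set U) ∪ {b}), tp j x = tp j b → slt x c := by
  refine ⟨T0_complete, T0_oMinimal, ?_⟩
  intro κ hκ U SU _ hmod hsat
  obtain ⟨A, O, hS, hmon, hnt, hU⟩ := exists_oag U hmod
  subst hS
  exact main hU hmod hκ hsat

end Pool.Agent.Results.MP_52937b_lc.NotCofinal
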